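import Pool.Agent.X167.BH.Core

/-! # Bohr sets of `⊕ F_2` -/

set_option autoImplicit false

namespace Pool.Agent.X167.BH

open Finset
open scoped Pointwise

noncomputable section

/-- `S` contains a Bohr set: the set of all `g` with `|χ_j(g) - 1| < η` for `j < k`. -/
def ContainsBohr {H : Type} [AddCommGroup H] (S : Set H) : Prop :=
  ∃ (k : ℕ) (χ : Fin k → AddChar H Circle) (η : ℝ), 0 < η ∧
    {g | ∀ j, ‖((χ j g : Circle) : ℂ) - 1‖ < η} ⊆ S

def e (S : Finset ℕ) : G := ∑ i ∈ S, Finsupp.single i 1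

theorem e_apply (S : Finset ℕ) (i : ℕ) : e S i = if i ∈ S then 1 else 0 := by
  unfold e
  rw [Finsupp.finsetSum_apply]
  simp [Finsupp.single_apply]

theorem e_symmDiff (S T : Finset ℕ) : e (symmDiff S T) = e S + e T := by
  ext i
  rw [Finsupp.add_apply, e_apply, e_apply, e_apply]
  by_cases h1 : i ∈ S <;> by_cases h2 : i ∈ T <;> simp [h1, h2, Finset.mem_symmDiff]
  decide

theorem e_inj : Function.Injective e := by
  intro S T h
  ext i
  have := DFunLike.congr_fun h i
  rw [e_apply, e_apply] at this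
  by_cases h1 : i ∈ S <;> by_cases h2 : i ∈ T <;> simp [h1, h2] at this ⊢

theorem e_support (x : G) : e x.support = x := by
  ext i
  rw [e_apply]
  rcases zmod2 (x i) with h | h
  · rw [if_neg (by rw [Finsupp.mem_support_iff]; simp [h]), h]
  · rw [if_pos (by rw [Finsupp.mem_support_iff, h]; decide), h]

theorem wt_e (P : Par) (k : ℕ) (S : Finset ℕ) : P.wt k (e S) = (P.I k ∩ S).card := by
  unfold Par.wt
  congr 1
  ext i
  rw [Finset.mem_filter, Finset.mem_inter, e_apply]
  by_cases h : i ∈ S <;> simp [h]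

theorem char_sq (χ : AddChar G Circle) (x : G) : χ x * χ x = 1 := by
  rw [← AddChar.map_add_eq_mul, G_add_self, AddChar.map_zero_eq_one]

theorem sgn {c : Circle} (h : c * c = 1) (hc : c ≠ 1) : (c : ℂ) = -1 := by
  have h1 : (c : ℂ) * (c : ℂ) = 1 := by
    rw [← Circle.coe_mul, h, Circle.coe_one]
  rcases mul_self_eq_one_iff.1 h1 with h2 | h2
  · exact absurd (Circle.ext (by rw [h2, Circle.coe_one])) hc
  · exact h2

theorem sgn_mul {c d : Circle} (hc : c * c = 1) (hd : d * d = 1) (h : c = 1 ↔ d = 1) :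
    c * d = 1 := by
  by_cases h1 : c = 1
  · rw [h1, h.1 h1, one_mul]
  · have h2 : d ≠ 1 := fun h' => h1 (h.2 h')
    apply Circle.ext
    rw [Circle.coe_mul, sgn hc h1, sgn hd h2, Circle.coe_one]
    ring

theorem exists_u (P : Par) {h k : ℕ} (hk : h ≤ k) (χ : Fin h → AddChar G Circle) :
    ∃ u ∈ P.U k, ∀ j, χ j u = 1 := by
  classical
  set F := (P.I k).powerset.filter (fun S => ∀ j, χ j (e S) = χ j (e (P.I k))) with hF
  have hne : F.Nonempty := ⟨P.I k, by rw [hF, Finset.mem_filter]; simp⟩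
  obtain ⟨S, hS, hmin⟩ := Finset.exists_min_image F Finset.card hne
  rw [hF, Finset.mem_filter, Finset.mem_powerset] at hS
  have hcard : S.card ≤ h := by
    by_contra hcon
    push Not at hcon
    have h1 : (Finset.univ : Finset (Finset (Fin h))).card < S.powerset.card := by
      rw [Finset.card_univ, Fintype.card_finset, Fintype.card_fin, Finset.card_powerset]
      exact Nat.pow_lt_pow_right (by omega) hcon
    obtain ⟨T₁, hT₁, T₂, hT₂, hne', heq⟩ := Finset.exists_ne_map_eq_of_card_lt_of_maps_to h1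
      (f := fun T => Finset.univ.filter (fun j => χ j (e T) = 1))
      (fun T _ => Finset.mem_univ _)
    rw [Finset.mem_powerset] at hT₁ hT₂
    set D := symmDiff T₁ T₂ with hD
    have hDS : D ⊆ S := by
      intro i hi
      rw [hD, Finset.mem_symmDiff] at hi
      rcases hi with hi | hi
      · exact hT₁ hi.1
      · exact hT₂ hi.1
    have hDne : D.Nonempty := by
      rw [Finset.nonempty_iff_ne_empty]
      intro h0
      apply hne'
      have : symmDiff T₁ T₂ = ⊥ := h0
      exact symmDiff_eq_bot.1 this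
    have hDχ : ∀ j, χ j (e D) = 1 := by
      intro j
      rw [hD, e_symmDiff, AddChar.map_add_eq_mul]
      apply sgn_mul (char_sq _ _) (char_sq _ _)
      have := congrArg (fun s => j ∈ s) heq
      simpa using this
    have hmem : symmDiff S D ∈ F := by
      rw [hF, Finset.mem_filter, Finset.mem_powerset]
      refine ⟨?_, fun j => ?_⟩
      · intro i hi
        rw [Finset.mem_symmDiff] at hi
        rcases hi with hi | hi
        · exact hS.1 hi.1
        · exact hS.1 (hDS hi.1)
      · rw [e_symmDiff, AddChar.map_add_eq_mul, hDχ, mul_one, hS.2]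
    have h2 := hmin _ hmem
    have h3 : symmDiff S D = S \ D := by
      ext i
      rw [Finset.mem_symmDiff, Finset.mem_sdiff]
      constructor
      · rintro (h | h)
        · exact h
        · exact absurd (hDS h.1) h.2
      · exact fun h => Or.inl h
    rw [h3, Finset.card_sdiff_of_subset hDS] at h2
    have h4 := Finset.card_pos.2 hDne
    have h5 := Finset.card_le_card hDS
    omega
  refine ⟨e (symmDiff (P.I k) S), ⟨fun i hi => ?_, ?_⟩, fun j => ?_⟩
  · rw [e_apply, if_neg]
    rw [Finset.mem_symmDiff]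
    rintro (h' | h')
    · exact hi h'.1
    · exact hi (hS.1 h'.1)
  · rw [wt_e]
    have h3 : P.I k ∩ symmDiff (P.I k) S = P.I k \ S := by
      ext i
      rw [Finset.mem_inter, Finset.mem_symmDiff, Finset.mem_sdiff]
      constructor
      · rintro ⟨h1, h | h⟩
        · exact h
        · exact absurd h1 h.2
      · exact fun h => ⟨h.1, Or.inl h⟩
    rw [h3, Finset.card_sdiff_of_subset hS.1, card_I]
    omega
  · rw [e_symmDiff, AddChar.map_add_eq_mul, hS.2, char_sq]

/-- the partition -/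
def Par.A (P : Par) (i : Fin 2) : Set G :=
  if i = 0 then {x | ∃ k u b, ¬ Even k ∧ u ∈ P.U k ∧ b ∈ P.B ∧ x = P.z k + u + b}
  else {x | ∃ k u b, ¬ Even k ∧ u ∈ P.U k ∧ b ∈ P.B ∧ x = P.z k + u + b}ᶜ

theorem noBohr (P : Par) (hz : ∀ (g : G) (K : ℕ), (∃ k, K ≤ k ∧ Even k ∧ P.z k = g) ∧
    ∃ k, K ≤ k ∧ ¬ Even k ∧ P.z k = g) (c : G) (i : Fin 2) :
    ¬ ContainsBohr (P.B + ({c} : Set G) + P.A i) := by
  rintro ⟨h, χ, η, hη, hsub⟩
  have key : ∀ k, h ≤ k → ∃ u ∈ P.U k, u ∈ P.B + ({c} : Set G) + P.A i := by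
    intro k hk
    obtain ⟨u, hu, hχ⟩ := exists_u P hk χ
    refine ⟨u, hu, hsub fun j => ?_⟩
    rw [hχ j]
    simpa using hη
  by_cases hi : i = 0
  · obtain ⟨l, hl, hle, hlz⟩ := (hz c h).1
    obtain ⟨v, hv, hv'⟩ := key l hl
    rw [Set.mem_add] at hv'
    obtain ⟨bc, hbc, a', ha', hva⟩ := hv'
    rw [Set.mem_add] at hbc
    obtain ⟨b, hb, c', hc', hbc'⟩ := hbc
    rw [Set.mem_singleton_iff] at hc'
    rw [Par.A, if_pos hi] at ha'
    obtain ⟨k, u, b', hk, hu, hb', hab⟩ := ha'
    apply disj P hb hk hle hu hv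
    have : b + (P.z k + u) + (P.z l + v) = b' := by
      rw [← hva, ← hbc', hc', hab, hlz]
      have h1 := G_add_self b
      have h2 := G_add_self (P.z k)
      have h3 := G_add_self u
      have h4 := G_add_self c
      calc b + (P.z k + u) + (c + (b + c + (P.z k + u + b'))) =
          (b + b) + (P.z k + P.z k) + (u + u) + (c + c) + b' := by abel
        _ = b' := by rw [h1, h2, h3, h4]; simp
    rw [this]
    exact hb'
  · obtain ⟨l, hl, hle, hlz⟩ := (hz c h).2
    obtain ⟨v, hv, hv'⟩ := key l hl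
    rw [Set.mem_add] at hv'
    obtain ⟨bc, hbc, a', ha', hva⟩ := hv'
    rw [Set.mem_add] at hbc
    obtain ⟨b, hb, c', hc', hbc'⟩ := hbc
    rw [Set.mem_singleton_iff] at hc'
    rw [Par.A, if_neg hi] at ha'
    apply ha'
    refine ⟨l, v, b, hle, hv, hb, ?_⟩
    rw [← hva, ← hbc', hc', hlz]
    have h1 := G_add_self b
    have h4 := G_add_self c
    calc a' = (b + b) + (c + c) + a' := by rw [h1, h4]; simp
      _ = _ := by abel

end

end Pool.Agent.X167.BH
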