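import Mathlib

/-! # A set of positive density in `⊕ F_2` and two Bohr dense sets -/

set_option autoImplicit false

namespace Pool.Agent.X167.BH

open Finset

noncomputable section

/-- the direct sum of countably many groups of order two -/
abbrev G := ℕ →₀ ZMod 2

/-- the parameters -/
structure Par where
  a : ℕ → ℕ
  m : ℕ → ℕ
  z : ℕ → G
  ha0 : a 0 = 0
  ha : ∀ k, a (k + 1) = a k + 2 * m k
  hm : ∀ k, k < m k
  hz : ∀ k i, a k ≤ i → z k i = 0

variable (P : Par)

def Par.I (k : ℕ) : Finset ℕ := Finset.Ico (P.a k) (P.a (k + 1))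

def Par.wt (k : ℕ) (y : G) : ℕ := ((P.I k).filter (fun i => y i ≠ 0)).card

def Par.b (k : ℕ) (y : G) : ZMod 2 := if P.m k < P.wt k y then 1 else 0

def Par.Psi (N : ℕ) (y : G) : G := y + ∑ k ∈ range N, P.b k y • P.z k

def Par.pr (N : ℕ) (y : G) : ZMod 2 := ∑ k ∈ range N, if Even k then P.b k y else 0

def Par.typ (k : ℕ) (y : G) : Prop := P.wt k y + k < P.m k ∨ P.m k + k < P.wt k y

def Par.U (k : ℕ) : Set G := {u | (∀ i, i ∉ P.I k → u i = 0) ∧ 2 * P.m k ≤ P.wt k u + k}

def Par.Below (N : ℕ) (y : G) : Prop := ∀ i, P.a N ≤ i → y i = 0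

theorem zmod2 (x : ZMod 2) : x = 0 ∨ x = 1 := by
  revert x; decide

theorem two_add (x : ZMod 2) : x + x = 0 := by
  revert x; decide

theorem G_add_self (x : G) : x + x = 0 := by
  ext i
  simp [two_add]

theorem G_neg (x : G) : -x = x := by
  rw [neg_eq_iff_add_eq_zero, G_add_self]

theorem card_I (k : ℕ) : (P.I k).card = 2 * P.m k := by
  rw [Par.I, Nat.card_Ico, P.ha]
  omega

theorem a_mono : Monotone P.a := monotone_nat_of_le_succ fun k => by rw [P.ha]; omega

theorem le_a (k : ℕ) : k ≤ P.a k := by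
  induction k with
  | zero => omega
  | succ k ih => rw [P.ha]; have := P.hm k; omega

theorem I_disj {j k i : ℕ} (hj : i ∈ P.I j) (hk : i ∈ P.I k) : j = k := by
  rw [Par.I, Finset.mem_Ico] at hj hk
  rcases lt_trichotomy j k with h | h | h
  · have := a_mono P (show j + 1 ≤ k from h); omega
  · exact h
  · have := a_mono P (show k + 1 ≤ j from h); omega

theorem wt_ge {k : ℕ} {y u : G} (hu : u ∈ P.U k) :
    2 * P.m k ≤ P.wt k (y + u) + P.wt k y + k := by
  have h1 : P.wt k u ≤ P.wt k (y + u) + P.wt k y := by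
    unfold Par.wt
    rw [← Finset.card_union_add_card_inter]
    refine le_trans (Finset.card_le_card ?_) (Nat.le_add_right _ _)
    intro i hi
    rw [Finset.mem_filter] at hi
    rw [Finset.mem_union, Finset.mem_filter, Finset.mem_filter]
    by_cases hy : y i = 0
    · left
      refine ⟨hi.1, ?_⟩
      rw [Finsupp.add_apply, hy, zero_add]
      exact hi.2
    · exact Or.inr ⟨hi.1, hy⟩
  have := hu.2
  omega

theorem wt_le {k : ℕ} {y u : G} (hu : u ∈ P.U k) :
    P.wt k (y + u) + P.wt k y ≤ 2 * P.m k + k := by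
  have e1 : P.wt k y + ((P.I k).filter (fun i => y i = 0)).card = 2 * P.m k := by
    rw [← card_I, ← Finset.card_filter_add_card_filter_not (s := P.I k) (fun i => y i ≠ 0)]
    simp [Par.wt]
  have e2 : P.wt k u + ((P.I k).filter (fun i => u i = 0)).card = 2 * P.m k := by
    rw [← card_I, ← Finset.card_filter_add_card_filter_not (s := P.I k) (fun i => u i ≠ 0)]
    simp [Par.wt]
  have h1 : P.wt k (y + u) ≤ ((P.I k).filter (fun i => y i = 0)).card +
      ((P.I k).filter (fun i => u i = 0)).card := by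
    unfold Par.wt
    rw [← Finset.card_union_add_card_inter]
    refine le_trans (Finset.card_le_card ?_) (Nat.le_add_right _ _)
    intro i hi
    rw [Finset.mem_filter] at hi
    rw [Finset.mem_union, Finset.mem_filter, Finset.mem_filter]
    rcases zmod2 (y i) with hy | hy
    · exact Or.inl ⟨hi.1, hy⟩
    rcases zmod2 (u i) with hu | hu
    · exact Or.inr ⟨hi.1, hu⟩
    exfalso
    apply hi.2
    rw [Finsupp.add_apply, hy, hu]
    decide
  have := hu.2
  omega

theorem b_flip {k : ℕ} {y u : G} (hy : P.typ k y) (hu : u ∈ P.U k) :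
    P.b k (y + u) = P.b k y + 1 := by
  have h1 := wt_ge P (y := y) hu
  have h2 := wt_le P (y := y) hu
  unfold Par.b
  rcases hy with h | h
  · rw [if_pos (by omega), if_neg (by omega)]; decide
  · rw [if_neg (by omega), if_pos (by omega)]; decide

theorem wt_other {j k : ℕ} (hjk : j ≠ k) {y u : G} (hu : u ∈ P.U k) :
    P.wt j (y + u) = P.wt j y := by
  unfold Par.wt
  congr 1
  apply Finset.filter_congr
  intro i hi
  have : u i = 0 := hu.1 i fun h => hjk (I_disj P hi h)
  rw [Finsupp.add_apply, this, add_zero]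

theorem b_other {j k : ℕ} (hjk : j ≠ k) {y u : G} (hu : u ∈ P.U k) :
    P.b j (y + u) = P.b j y := by
  unfold Par.b
  rw [wt_other P hjk hu]

theorem typ_other {j k : ℕ} (hjk : j ≠ k) {y u : G} (hu : u ∈ P.U k) (hy : P.typ j y) :
    P.typ j (y + u) := by
  unfold Par.typ at *
  rw [wt_other P hjk hu]
  exact hy

theorem b_step {j k : ℕ} {y u : G} (hy : P.typ k y) (hu : u ∈ P.U k) :
    P.b j (y + u) = P.b j y + if j = k then 1 else 0 := by
  by_cases h : j = k
  · subst h; rw [if_pos rfl, b_flip P hy hu]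
  · rw [if_neg h, add_zero, b_other P h hu]

theorem Psi_step {k N : ℕ} (hkN : k < N) {y u : G} (hy : P.typ k y) (hu : u ∈ P.U k) :
    P.Psi N (y + u) = P.Psi N y + (P.z k + u) := by
  unfold Par.Psi
  have h1 : ∑ j ∈ range N, P.b j (y + u) • P.z j = ∑ j ∈ range N, P.b j y • P.z j + P.z k := by
    rw [Finset.sum_congr rfl fun j _ => by rw [b_step P hy hu, add_smul], Finset.sum_add_distrib]
    congr 1
    rw [Finset.sum_eq_single k]
    · simp
    · intro j _ hjk; simp [hjk]
    · intro h; exact absurd (Finset.mem_range.2 hkN) h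
  rw [h1]
  abel

theorem pr_step {k N : ℕ} (hkN : k < N) {y u : G} (hy : P.typ k y) (hu : u ∈ P.U k) :
    P.pr N (y + u) = P.pr N y + if Even k then 1 else 0 := by
  unfold Par.pr
  have h1 : ∀ j ∈ range N, (if Even j then P.b j (y + u) else 0) =
      (if Even j then P.b j y else 0) + (if j = k then (if Even k then 1 else 0) else 0) := by
    intro j _
    rw [b_step P hy hu]
    by_cases hj : Even j
    · simp only [hj, if_true]
      by_cases hjk : j = k
      · subst hjk; simp [hj]
      · simp [hjk]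
    · simp only [hj, if_false]
      by_cases hjk : j = k
      · subst hjk; simp [hj]
      · simp [hjk]
  rw [Finset.sum_congr rfl h1, Finset.sum_add_distrib]
  congr 1
  rw [Finset.sum_ite_eq' (range N) k]
  simp [hkN]

theorem b_below {k N : ℕ} (hkN : N ≤ k) {y : G} (hy : P.Below N y) : P.b k y = 0 := by
  unfold Par.b
  have : P.wt k y = 0 := by
    unfold Par.wt
    rw [Finset.card_eq_zero, Finset.filter_eq_empty_iff]
    intro i hi
    rw [Par.I, Finset.mem_Ico] at hi
    rw [not_not]
    exact hy i ((a_mono P hkN).trans hi.1)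
  rw [this]
  simp

theorem Below.mono {N N' : ℕ} (h : N ≤ N') {y : G} (hy : P.Below N y) : P.Below N' y :=
  fun i hi => hy i ((a_mono P h).trans hi)

theorem Psi_stable {N N' : ℕ} (h : N ≤ N') {y : G} (hy : P.Below N y) :
    P.Psi N' y = P.Psi N y := by
  unfold Par.Psi
  congr 1
  symm
  apply Finset.sum_subset (Finset.range_subset_range.2 h)
  intro k _ hk
  rw [Finset.mem_range, not_lt] at hk
  rw [b_below P hk hy, zero_smul]

theorem pr_stable {N N' : ℕ} (h : N ≤ N') {y : G} (hy : P.Below N y) :
    P.pr N' y = P.pr N y := by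
  unfold Par.pr
  symm
  apply Finset.sum_subset (Finset.range_subset_range.2 h)
  intro k _ hk
  rw [Finset.mem_range, not_lt] at hk
  rw [b_below P hk hy, ite_self]

theorem exists_block {N i : ℕ} (hi : i < P.a N) : ∃ k < N, i ∈ P.I k := by
  induction N with
  | zero => rw [P.ha0] at hi; omega
  | succ N ih =>
    by_cases h : i < P.a N
    · obtain ⟨k, hk, hk'⟩ := ih h
      exact ⟨k, by omega, hk'⟩
    · exact ⟨N, by omega, by rw [Par.I, Finset.mem_Ico]; omega⟩

theorem Psi_inj {N : ℕ} {y y' : G} (hy : P.Below N y) (hy' : P.Below N y')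
    (h : P.Psi N y = P.Psi N y') : y = y' := by
  by_contra hne
  have hD : ((y - y').support).Nonempty := by
    rw [Finsupp.support_nonempty_iff]
    exact sub_ne_zero.2 hne
  set i := (y - y').support.max' hD with hi
  have hi1 : y i ≠ y' i := by
    have := Finset.max'_mem _ hD
    rw [← hi, Finsupp.mem_support_iff, Finsupp.sub_apply, sub_ne_zero] at this
    exact this
  have hi2 : ∀ j, i < j → y j = y' j := by
    intro j hj
    by_contra hc
    have : j ∈ (y - y').support := by
      rw [Finsupp.mem_support_iff, Finsupp.sub_apply, sub_ne_zero]; exact hc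
    exact absurd (Finset.le_max' _ j this) (by omega)
  have hiN : i < P.a N := by
    by_contra hc
    exact hi1 (by rw [hy i (by omega), hy' i (by omega)])
  obtain ⟨k, hkN, hk⟩ := exists_block P hiN
  rw [Par.I, Finset.mem_Ico] at hk
  have h1 : ∑ j ∈ range N, (P.b j y • P.z j) i = ∑ j ∈ range N, (P.b j y' • P.z j) i := by
    refine Finset.sum_congr rfl fun j _ => ?_
    by_cases hjk : j ≤ k
    · rw [Finsupp.smul_apply, Finsupp.smul_apply, P.hz j i ((a_mono P hjk).trans hk.1)]
      simp
    · have : P.b j y = P.b j y' := by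
        unfold Par.b Par.wt
        congr 3
        apply Finset.filter_congr
        intro l hl
        rw [Par.I, Finset.mem_Ico] at hl
        have := a_mono P (show k + 1 ≤ j by omega)
        rw [hi2 l (by omega)]
      rw [this]
  have h2 := DFunLike.congr_fun h i
  unfold Par.Psi at h2
  rw [Finsupp.add_apply, Finsupp.add_apply, Finsupp.finsetSum_apply, Finsupp.finsetSum_apply,
    h1] at h2
  exact hi1 (add_right_cancel h2)

/-- the set `B` -/
def Par.B : Set G := {x | ∃ N y, P.Below N y ∧ (∀ k, P.typ k y) ∧ P.pr N y = 0 ∧ x = P.Psi N y}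

theorem U_below {k : ℕ} {u : G} (hu : u ∈ P.U k) : P.Below (k + 1) u := by
  intro i hi
  refine hu.1 i fun h => ?_
  rw [Par.I, Finset.mem_Ico] at h
  omega

theorem Below.add {N : ℕ} {y u : G} (hy : P.Below N y) (hu : P.Below N u) : P.Below N (y + u) := by
  intro i hi
  rw [Finsupp.add_apply, hy i hi, hu i hi, add_zero]

theorem disj {x : G} (hx : x ∈ P.B) {k l : ℕ} (hk : ¬ Even k) (hl : Even l) {u v : G}
    (hu : u ∈ P.U k) (hv : v ∈ P.U l) : x + (P.z k + u) + (P.z l + v) ∉ P.B := by
  rintro ⟨N', y', hy', -, hpr', hx'⟩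
  obtain ⟨N, y, hy, hty, hpr, rfl⟩ := hx
  have hkl : l ≠ k := by rintro rfl; exact hk hl
  set M := max (max N N') (max (k + 1) (l + 1)) with hM
  have h1 : N ≤ M := by omega
  have h2 : N' ≤ M := by omega
  have h3 : k < M := by omega
  have h4 : l < M := by omega
  rw [← Psi_stable P h1 hy, ← Psi_stable P h2 hy', ← Psi_step P h3 (hty k) hu,
    ← Psi_step P h4 (typ_other P hkl hu (hty l)) hv] at hx'
  have h5 := Psi_inj P (Below.add P (Below.add P (Below.mono P h1 hy)
    (Below.mono P (by omega) (U_below P hu))) (Below.mono P (by omega) (U_below P hv)))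
    (Below.mono P h2 hy') hx'
  have h6 : P.pr M y' = 0 := by rw [pr_stable P h2 hy', hpr']
  rw [← h5, pr_step P h4 (typ_other P hkl hu (hty l)) hv, pr_step P h3 (hty k) hu,
    pr_stable P h1 hy, hpr, if_neg hk, if_pos hl] at h6
  revert h6
  decide

end

end Pool.Agent.X167.BH
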