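import Pool.Agent.X167.BH.Bohr

/-! # Counting -/

set_option autoImplicit false

namespace Pool.Agent.X167.BH

open Finset
open scoped Classical

noncomputable section

/-- the vectors with support in the first `a n` coordinates -/
def Par.F (P : Par) (n : ℕ) : Finset G := (range (P.a n)).powerset.map ⟨e, e_inj⟩

theorem mem_F {P : Par} {n : ℕ} {x : G} : x ∈ P.F n ↔ P.Below n x := by
  unfold Par.F
  rw [Finset.mem_map]
  constructor
  · rintro ⟨S, hS, rfl⟩ i hi
    rw [Finset.mem_powerset] at hS
    change e S i = 0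
    rw [e_apply, if_neg fun h => ?_]
    have := Finset.mem_range.1 (hS h)
    omega
  · intro h
    refine ⟨x.support, ?_, e_support x⟩
    rw [Finset.mem_powerset]
    intro i hi
    rw [Finset.mem_range]
    by_contra hc
    rw [Finsupp.mem_support_iff] at hi
    exact hi (h i (by omega))

theorem card_F (P : Par) (n : ℕ) : (P.F n).card = 2 ^ P.a n := by
  unfold Par.F
  rw [Finset.card_map, Finset.card_powerset, Finset.card_range]

theorem I_sub (P : Par) {k n : ℕ} (h : k < n) : P.I k ⊆ range (P.a n) := by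
  intro i hi
  rw [Par.I, Finset.mem_Ico] at hi
  rw [Finset.mem_range]
  have := a_mono P (show k + 1 ≤ n from h)
  omega

theorem bad_card (P : Par) {k n : ℕ} (h : k < n) :
    ((range (P.a n)).powerset.filter (fun S => ¬ P.typ k (e S))).card ≤
      (2 * k + 1) * (P.m k).centralBinom * 2 ^ (P.a n - 2 * P.m k) := by
  have hI := I_sub P h
  have h1 : ((range (P.a n)).powerset.filter (fun S => ¬ P.typ k (e S))).card ≤
      (((P.I k).powerset.filter (fun T => T.card ∈ Icc (P.m k - k) (P.m k + k))) ×ˢ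
        (range (P.a n) \ P.I k).powerset).card := by
    apply Finset.card_le_card_of_injOn (fun S => (P.I k ∩ S, S \ P.I k))
    · intro S hS
      rw [Finset.mem_coe, Finset.mem_filter, Finset.mem_powerset] at hS
      rw [Finset.mem_coe, Finset.mem_product, Finset.mem_filter, Finset.mem_powerset,
        Finset.mem_powerset]
      refine ⟨⟨Finset.inter_subset_left, ?_⟩, ?_⟩
      · have h2 := hS.2
        unfold Par.typ at h2
        rw [wt_e] at h2
        have := P.hm k
        rw [Finset.mem_Icc]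
        change P.m k - k ≤ (P.I k ∩ S).card ∧ (P.I k ∩ S).card ≤ P.m k + k
        omega
      · intro i hi
        rw [Finset.mem_sdiff] at hi ⊢
        exact ⟨hS.1 hi.1, hi.2⟩
    · intro S _ T _ hST
      have h2 : P.I k ∩ S = P.I k ∩ T := congrArg Prod.fst hST
      have h3 : S \ P.I k = T \ P.I k := congrArg Prod.snd hST
      ext i
      by_cases hi : i ∈ P.I k
      · have := Finset.ext_iff.1 h2 i
        rw [Finset.mem_inter, Finset.mem_inter] at this
        tauto
      · have := Finset.ext_iff.1 h3 i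
        rw [Finset.mem_sdiff, Finset.mem_sdiff] at this
        tauto
  refine h1.trans ?_
  rw [Finset.card_product, Finset.card_powerset, Finset.card_sdiff_of_subset hI,
    Finset.card_range, card_I]
  apply Nat.mul_le_mul_right
  have h2 : (P.I k).powerset.filter (fun T => T.card ∈ Icc (P.m k - k) (P.m k + k)) ⊆
      (Icc (P.m k - k) (P.m k + k)).biUnion (fun j => Finset.powersetCard j (P.I k)) := by
    intro T hT
    rw [Finset.mem_filter, Finset.mem_powerset] at hT
    rw [Finset.mem_biUnion]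
    exact ⟨T.card, hT.2, Finset.mem_powersetCard.2 ⟨hT.1, rfl⟩⟩
  refine (Finset.card_le_card h2).trans (Finset.card_biUnion_le.trans ?_)
  have h3 : ∀ j ∈ Icc (P.m k - k) (P.m k + k), (Finset.powersetCard j (P.I k)).card ≤
      (P.m k).centralBinom := by
    intro j _
    rw [Finset.card_powersetCard, card_I]
    exact Nat.choose_le_centralBinom j (P.m k)
  refine (Finset.sum_le_card_nsmul _ _ _ h3).trans ?_
  rw [smul_eq_mul]
  apply Nat.mul_le_mul_right
  rw [Nat.card_Icc]
  have := P.hm k
  omega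

/-- the parameters are such that the atypical sets are small -/
def Par.Small (P : Par) (ε : ℝ) : Prop :=
  ∀ k : ℕ, (2 * k + 1 : ℝ) * (P.m k).centralBinom ≤ ε / 2 ^ (k + 1) * 4 ^ P.m k

theorem bad_real {P : Par} {ε : ℝ} (hs : P.Small ε) {k n : ℕ} (h : k < n) :
    (((range (P.a n)).powerset.filter (fun S => ¬ P.typ k (e S))).card : ℝ) ≤
      ε / 2 ^ (k + 1) * 2 ^ P.a n := by
  have h1 : (((range (P.a n)).powerset.filter (fun S => ¬ P.typ k (e S))).card : ℝ) ≤
      (((2 * k + 1) * (P.m k).centralBinom * 2 ^ (P.a n - 2 * P.m k) : ℕ) : ℝ) := by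
    exact_mod_cast bad_card P h
  refine h1.trans ?_
  push_cast
  have h2 : 2 * P.m k ≤ P.a n := by
    have h3 := a_mono P (show k + 1 ≤ n from h)
    rw [P.ha] at h3
    omega
  have h4 : (2 : ℝ) ^ P.a n = 4 ^ P.m k * 2 ^ (P.a n - 2 * P.m k) := by
    rw [show (4 : ℝ) = 2 ^ 2 by norm_num, ← pow_mul, ← pow_add]
    congr 1
    omega
  rw [h4, ← mul_assoc]
  exact mul_le_mul_of_nonneg_right (hs k) (by positivity)

def Par.T (P : Par) (n : ℕ) : Finset (Finset ℕ) :=
  (range (P.a n)).powerset.filter (fun S => ∀ k < n, P.typ k (e S))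

theorem sum_half (ε : ℝ) (hε : 0 ≤ ε) (n : ℕ) : ∑ k ∈ range n, ε / 2 ^ (k + 1) ≤ ε := by
  have h1 : ∀ n : ℕ, ∑ k ∈ range n, ε / 2 ^ (k + 1) = ε - ε / 2 ^ n := by
    intro n
    induction n with
    | zero => simp
    | succ n ih =>
      rw [Finset.sum_range_succ, ih, pow_succ]
      field_simp
      ring
  rw [h1]
  have : 0 ≤ ε / 2 ^ n := by positivity
  linarith

theorem card_T {P : Par} {ε : ℝ} (hε : 0 ≤ ε) (hs : P.Small ε) (n : ℕ) :
    (1 - ε) * 2 ^ P.a n ≤ ((P.T n).card : ℝ) := by
  have h1 : (range (P.a n)).powerset ⊆ P.T n ∪ (range n).biUnion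
      (fun k => (range (P.a n)).powerset.filter (fun S => ¬ P.typ k (e S))) := by
    intro S hS
    rw [Finset.mem_union, Finset.mem_biUnion]
    by_cases h : ∀ k < n, P.typ k (e S)
    · exact Or.inl (Finset.mem_filter.2 ⟨hS, h⟩)
    · push Not at h
      obtain ⟨k, hk, hk'⟩ := h
      exact Or.inr ⟨k, Finset.mem_range.2 hk, Finset.mem_filter.2 ⟨hS, hk'⟩⟩
  have h2 := (Finset.card_le_card h1).trans (Finset.card_union_le _ _)
  have h3 := h2.trans (Nat.add_le_add_left Finset.card_biUnion_le _)
  rw [Finset.card_powerset, Finset.card_range] at h3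
  have h4 : ((2 ^ P.a n : ℕ) : ℝ) ≤ (P.T n).card + ∑ k ∈ range n,
      (((range (P.a n)).powerset.filter (fun S => ¬ P.typ k (e S))).card : ℝ) := by
    exact_mod_cast h3
  have h5 : ∑ k ∈ range n,
      (((range (P.a n)).powerset.filter (fun S => ¬ P.typ k (e S))).card : ℝ) ≤
      ε * 2 ^ P.a n := by
    refine (Finset.sum_le_sum fun k hk => bad_real hs (Finset.mem_range.1 hk)).trans ?_
    rw [← Finset.sum_mul]
    exact mul_le_mul_of_nonneg_right (sum_half ε hε n) (by positivity)
  push_cast at h4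
  linarith

theorem eI_mem (P : Par) (k : ℕ) : e (P.I k) ∈ P.U k := by
  refine ⟨fun i hi => by rw [e_apply, if_neg hi], ?_⟩
  rw [wt_e, Finset.inter_self, card_I]
  omega

theorem typ_zero_step (P : Par) {y : G} (hy : P.typ 0 y) : P.typ 0 (y + e (P.I 0)) := by
  have h1 := wt_ge P (y := y) (eI_mem P 0)
  have h2 := wt_le P (y := y) (eI_mem P 0)
  unfold Par.typ at *
  omega

theorem half (P : Par) {n : ℕ} (hn : 0 < n) :
    (P.T n).card ≤ 2 * ((P.T n).filter (fun S => P.pr n (e S) = 0)).card := by
  rw [← Finset.card_filter_add_card_filter_not (s := P.T n) (fun S => P.pr n (e S) = 0), two_mul]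
  apply Nat.add_le_add_left
  apply Finset.card_le_card_of_injOn (fun S => symmDiff S (P.I 0))
  · intro S hS
    rw [Finset.mem_coe, Finset.mem_filter, Par.T, Finset.mem_filter, Finset.mem_powerset] at hS
    rw [Finset.mem_coe, Finset.mem_filter, Par.T, Finset.mem_filter, Finset.mem_powerset]
    refine ⟨⟨?_, fun k hk => ?_⟩, ?_⟩
    · intro i hi
      rw [Finset.mem_symmDiff] at hi
      rcases hi with hi | hi
      · exact hS.1.1 hi.1
      · exact I_sub P hn hi.1
    · rw [e_symmDiff]
      by_cases hk0 : k = 0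
      · subst hk0; exact typ_zero_step P (hS.1.2 0 hk)
      · exact typ_other P hk0 (eI_mem P 0) (hS.1.2 k hk)
    · rw [e_symmDiff, pr_step P hn (hS.1.2 0 hn) (eI_mem P 0)]
      rcases zmod2 (P.pr n (e S)) with h | h
      · exact absurd h hS.2
      · rw [h]; simp; decide
  · intro S _ T _ hST
    have : symmDiff (symmDiff S (P.I 0)) (P.I 0) = symmDiff (symmDiff T (P.I 0)) (P.I 0) :=
      congrArg (fun X => symmDiff X (P.I 0)) hST
    rwa [symmDiff_symmDiff_cancel_right, symmDiff_symmDiff_cancel_right] at this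

theorem Psi_below (P : Par) {n : ℕ} {y : G} (hy : P.Below n y) : P.Below n (P.Psi n y) := by
  intro i hi
  unfold Par.Psi
  rw [Finsupp.add_apply, hy i hi, zero_add, Finsupp.finsetSum_apply]
  apply Finset.sum_eq_zero
  intro k hk
  rw [Finset.mem_range] at hk
  rw [Finsupp.smul_apply, P.hz k i ((a_mono P hk.le).trans hi), smul_zero]

theorem card_B (P : Par) (n : ℕ) :
    ((P.T n).filter (fun S => P.pr n (e S) = 0)).card ≤
      ((P.F n).filter (fun x => x ∈ P.B)).card := by
  have hbel : ∀ S ∈ (P.T n).filter (fun S => P.pr n (e S) = 0), P.Below n (e S) := by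
    intro S hS
    rw [Finset.mem_filter, Par.T, Finset.mem_filter] at hS
    rw [← mem_F]
    exact Finset.mem_map.2 ⟨S, hS.1.1, rfl⟩
  apply Finset.card_le_card_of_injOn (fun S => P.Psi n (e S))
  · intro S hS
    have h1 := hbel S hS
    rw [Finset.mem_coe, Finset.mem_filter, Par.T, Finset.mem_filter] at hS
    rw [Finset.mem_coe, Finset.mem_filter]
    refine ⟨mem_F.2 (Psi_below P h1), n, e S, h1, fun k => ?_, hS.2, rfl⟩
    by_cases hk : k < n
    · exact hS.1.2 k hk
    · left
      have h2 : P.wt k (e S) = 0 := by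
        unfold Par.wt
        rw [Finset.card_eq_zero, Finset.filter_eq_empty_iff]
        intro i hi
        rw [Par.I, Finset.mem_Ico] at hi
        rw [not_not]
        exact h1 i ((a_mono P (not_lt.1 hk)).trans hi.1)
      rw [h2, zero_add]
      exact P.hm k
  · intro S hS T hT hST
    exact e_inj (Psi_inj P (hbel S hS) (hbel T hT) hST)

theorem count_B {P : Par} {ε : ℝ} (hε : 0 ≤ ε) (hs : P.Small ε) {n : ℕ} (hn : 0 < n) :
    1 / 2 - ε ≤ (((P.F n).filter (fun x => x ∈ P.B)).card : ℝ) / (P.F n).card := by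
  have h1 := card_T hε hs n
  have h2 : ((P.T n).card : ℝ) ≤ 2 * ((P.T n).filter (fun S => P.pr n (e S) = 0)).card := by
    exact_mod_cast half P hn
  have h3 : (((P.T n).filter (fun S => P.pr n (e S) = 0)).card : ℝ) ≤
      ((P.F n).filter (fun x => x ∈ P.B)).card := by
    exact_mod_cast card_B P n
  have h4 : ((P.F n).card : ℝ) = 2 ^ P.a n := by
    rw [card_F]; push_cast; rfl
  have h5 : (0 : ℝ) < 2 ^ P.a n := by positivity
  rw [h4, le_div_iff₀ h5]
  nlinarith [mul_nonneg hε h5.le]

end

end Pool.Agent.X167.BH
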