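import Pool.Agent.X167.BH.Count

/-! # The parameters and the theorem -/

set_option autoImplicit false

namespace Pool.Agent.X167.BH

open Finset Filter Topology
open scoped Classical Pointwise

noncomputable section

/-- `F` is a Følner sequence. -/
def IsFolner {H : Type} [AddCommGroup H] (F : ℕ → Finset H) : Prop :=
  (∀ n, (F n).Nonempty) ∧ ∀ g : H, Tendsto (fun n =>
    ((symmDiff ((F n).map (addLeftEmbedding g)) (F n)).card : ℝ) / (F n).card) atTop (𝓝 0)

/-- The proportion of the members of `F n` which are in `A`. -/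
def density {H : Type} (A : Set H) (F : ℕ → Finset H) (n : ℕ) : ℝ :=
  (((F n).filter (fun x => x ∈ A)).card : ℝ) / (F n).card

/-- The upper Banach density of `A`. -/
def upperBanach {H : Type} [AddCommGroup H] (A : Set H) : ℝ :=
  sSup {d | ∃ F : ℕ → Finset H, IsFolner F ∧ d = limsup (fun n => density A F n) atTop}

theorem cb_bound (m : ℕ) : (2 * m + 1) * (m.centralBinom) ^ 2 ≤ 16 ^ m := by
  induction m with
  | zero => simp
  | succ m ih =>
    have h := Nat.succ_mul_centralBinom_succ m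
    have h1 : (m + 1) ^ 2 * ((2 * (m + 1) + 1) * (m + 1).centralBinom ^ 2) =
        (2 * (m + 1) + 1) * (2 * (2 * m + 1) * m.centralBinom) ^ 2 := by
      rw [← h]; ring
    have h2 : (2 * (m + 1) + 1) * (2 * (2 * m + 1) * m.centralBinom) ^ 2 ≤
        (m + 1) ^ 2 * 16 ^ (m + 1) := by
      calc (2 * (m + 1) + 1) * (2 * (2 * m + 1) * m.centralBinom) ^ 2
          = 4 * ((2 * (m + 1) + 1) * (2 * m + 1)) * ((2 * m + 1) * m.centralBinom ^ 2) := by ring
        _ ≤ 4 * (4 * (m + 1) ^ 2) * 16 ^ m := by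
            apply Nat.mul_le_mul _ ih
            apply Nat.mul_le_mul_left
            nlinarith
        _ = (m + 1) ^ 2 * 16 ^ (m + 1) := by ring
    rw [← h1] at h2
    exact Nat.le_of_mul_le_mul_left h2 (by positivity)

theorem exists_m (δ : ℝ) (hδ : 0 < δ) (k : ℕ) :
    ∃ m : ℕ, k < m ∧ (2 * k + 1 : ℝ) * m.centralBinom ≤ δ * 4 ^ m := by
  obtain ⟨N, hN⟩ := exists_nat_ge (((2 * k + 1 : ℝ) / δ) ^ 2)
  refine ⟨max N (k + 1), by omega, ?_⟩
  set m := max N (k + 1) with hm
  have h1 : ((2 * k + 1 : ℝ) / δ) ^ 2 ≤ 2 * m + 1 := by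
    have : (N : ℝ) ≤ m := by exact_mod_cast le_max_left _ _
    have h0 : (0 : ℝ) ≤ m := by positivity
    linarith
  have h2 : ((2 * m + 1 : ℝ)) * (m.centralBinom : ℝ) ^ 2 ≤ 16 ^ m := by
    exact_mod_cast cb_bound m
  have h3 : (2 * k + 1 : ℝ) ^ 2 ≤ (2 * m + 1) * δ ^ 2 := by
    rw [div_pow, div_le_iff₀ (by positivity)] at h1
    exact h1
  have h4 : ((2 * k + 1 : ℝ) * m.centralBinom) ^ 2 ≤ (δ * 4 ^ m) ^ 2 := by
    calc ((2 * k + 1 : ℝ) * m.centralBinom) ^ 2
        = (2 * k + 1 : ℝ) ^ 2 * (m.centralBinom : ℝ) ^ 2 := by ring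
      _ ≤ ((2 * m + 1) * δ ^ 2) * (m.centralBinom : ℝ) ^ 2 :=
          mul_le_mul_of_nonneg_right h3 (by positivity)
      _ = δ ^ 2 * ((2 * m + 1) * (m.centralBinom : ℝ) ^ 2) := by ring
      _ ≤ δ ^ 2 * 16 ^ m := mul_le_mul_of_nonneg_left h2 (by positivity)
      _ = (δ * 4 ^ m) ^ 2 := by
          rw [mul_pow, ← pow_mul, mul_comm m 2, pow_mul]; norm_num
  exact (pow_le_pow_iff_left₀ (by positivity) (by positivity) two_ne_zero).1 h4

theorem exists_par (ε : ℝ) (hε : 0 < ε) : ∃ P : Par, P.Small ε ∧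
    ∀ (g : G) (K : ℕ), (∃ k, K ≤ k ∧ Even k ∧ P.z k = g) ∧
      ∃ k, K ≤ k ∧ ¬ Even k ∧ P.z k = g := by
  choose m hm hm' using fun k => exists_m (ε / 2 ^ (k + 1)) (by positivity) k
  obtain ⟨f, hf⟩ := exists_surjective_nat G
  set a : ℕ → ℕ := fun k => ∑ j ∈ range k, 2 * m j with ha
  have haS : ∀ k, a (k + 1) = a k + 2 * m k := fun k => by rw [ha]; exact Finset.sum_range_succ _ _
  set z : ℕ → G := fun k => if ∀ i, a k ≤ i → f (Nat.unpair (k / 2)).1 i = 0 then
    f (Nat.unpair (k / 2)).1 else 0 with hz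
  have hz0 : ∀ k i, a k ≤ i → z k i = 0 := by
    intro k i hi
    rw [hz]
    dsimp only
    by_cases h : ∀ i, a k ≤ i → f (Nat.unpair (k / 2)).1 i = 0
    · rw [if_pos h]
      exact h i hi
    · rw [if_neg h]; rfl
  let P : Par := ⟨a, m, z, by rw [ha]; simp, haS, hm, hz0⟩
  have hkey : ∀ (g : G) (K p : ℕ), p < 2 → ∃ k, K ≤ k ∧ k % 2 = p ∧ z k = g := by
    intro g K p hp
    obtain ⟨n, hn⟩ := hf g
    obtain ⟨L, hL⟩ : ∃ L : ℕ, ∀ i, L ≤ i → g i = 0 := by
      refine ⟨g.support.sup id + 1, fun i hi => ?_⟩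
      by_contra hc
      have := Finset.le_sup (f := id) (Finsupp.mem_support_iff.2 hc)
      simp only [id] at this
      omega
    set t := max K L with ht
    have h1 := Nat.right_le_pair n t
    set k := 2 * Nat.pair n t + p with hk
    have h2 : k / 2 = Nat.pair n t := by omega
    refine ⟨k, by omega, by omega, ?_⟩
    have h3 : f (Nat.unpair (k / 2)).1 = g := by rw [h2, Nat.unpair_pair, hn]
    have h4 : ∀ i, a k ≤ i → f (Nat.unpair (k / 2)).1 i = 0 := by
      intro i hi
      rw [h3]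
      apply hL
      have := le_a P k
      have h5 : k ≤ a k := this
      omega
    rw [hz]
    simp only
    rw [if_pos h4, h3]
  refine ⟨P, hm', fun g K => ⟨?_, ?_⟩⟩
  · obtain ⟨k, h1, h2, h3⟩ := hkey g K 0 (by omega)
    exact ⟨k, h1, Nat.even_iff.2 h2, h3⟩
  · obtain ⟨k, h1, h2, h3⟩ := hkey g K 1 (by omega)
    exact ⟨k, h1, by rw [Nat.even_iff]; omega, h3⟩

theorem sd_card {H : Type} {inst : DecidableEq H} (X : Finset H) : (symmDiff X X).card = 0 := by
  simp

theorem fu_card {H : Type} (X : Finset H) (p : H → Prop) {inst : DecidablePred p}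
    (h : ∀ x, p x) : (X.filter p).card = X.card := by
  rw [Finset.filter_true_of_mem (fun x _ => h x)]

theorem folner (P : Par) : IsFolner P.F := by
  refine ⟨fun n => ⟨0, mem_F.2 fun i _ => rfl⟩, fun g => ?_⟩
  apply tendsto_const_nhds.congr'
  obtain ⟨L, hL⟩ : ∃ L : ℕ, ∀ i, L ≤ i → g i = 0 := by
    refine ⟨g.support.sup id + 1, fun i hi => ?_⟩
    by_contra hc
    have := Finset.le_sup (f := id) (Finsupp.mem_support_iff.2 hc)
    simp only [id] at this
    omega
  filter_upwards [Filter.eventually_ge_atTop L] with n hn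
  have hg : P.Below n g := fun i hi => hL i (by have := le_a P n; omega)
  have h1 : (P.F n).map (addLeftEmbedding g) = P.F n := by
    apply Finset.eq_of_subset_of_card_le
    · intro x hx
      rw [Finset.mem_map] at hx
      obtain ⟨y, hy, rfl⟩ := hx
      rw [mem_F] at hy ⊢
      exact Below.add P hg hy
    · rw [Finset.card_map]
  rw [h1, sd_card, Nat.cast_zero, zero_div]

theorem density_nonneg {H : Type} (A : Set H) (F : ℕ → Finset H) (n : ℕ) : 0 ≤ density A F n := by
  unfold density; positivity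

theorem density_le_one {H : Type} (A : Set H) (F : ℕ → Finset H) (n : ℕ) : density A F n ≤ 1 := by
  unfold density
  apply div_le_one_of_le₀ _ (by positivity)
  exact_mod_cast Finset.card_filter_le _ _

theorem limsup_le_one {H : Type} (A : Set H) (F : ℕ → Finset H) :
    limsup (fun n => density A F n) atTop ≤ 1 := by
  apply Filter.limsup_le_of_le
  · exact Filter.isCoboundedUnder_le_of_le atTop (density_nonneg A F)
  · exact Filter.Eventually.of_forall (density_le_one A F)

theorem le_upperBanach {H : Type} [AddCommGroup H] (A : Set H) {F : ℕ → Finset H}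
    (hF : IsFolner F) : limsup (fun n => density A F n) atTop ≤ upperBanach A := by
  apply le_csSup
  · refine ⟨1, ?_⟩
    rintro d ⟨F', -, rfl⟩
    exact limsup_le_one A F'
  · exact ⟨F, hF, rfl⟩

theorem banach_B {P : Par} {ε : ℝ} (hε : 0 ≤ ε) (hs : P.Small ε) :
    1 / 2 - ε ≤ upperBanach P.B := by
  refine le_trans ?_ (le_upperBanach P.B (folner P))
  apply Filter.le_limsup_of_frequently_le
  · apply Filter.Eventually.frequently
    filter_upwards [Filter.eventually_gt_atTop 0] with n hn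
    exact count_B hε hs hn
  · exact ⟨1, Filter.eventually_map.2 (Filter.Eventually.of_forall (density_le_one _ _))⟩

theorem banach_univ : upperBanach (Set.univ : Set G) = 1 := by
  obtain ⟨P, -⟩ := exists_par 1 one_pos
  apply le_antisymm
  · apply Real.sSup_le _ zero_le_one
    rintro d ⟨F, -, rfl⟩
    exact limsup_le_one _ _
  · refine le_trans ?_ (le_upperBanach _ (folner P))
    have : ∀ n, density (Set.univ : Set G) P.F n = 1 := by
      intro n
      unfold density
      rw [fu_card _ _ fun x => Set.mem_univ x]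
      apply div_self
      rw [card_F]
      positivity
    simp [this]

theorem main (ε : ℝ) (hε : 0 < ε) : ∃ (B : Set G) (A : Fin 2 → Set G),
    1 / 2 - ε ≤ upperBanach B ∧ (⋃ i, A i) = Set.univ ∧ Disjoint (A 0) (A 1) ∧
    ∀ (c : G) (i : Fin 2), ¬ ContainsBohr (B + ({c} : Set G) + A i) := by
  obtain ⟨P, hs, hz⟩ := exists_par ε hε
  refine ⟨P.B, P.A, banach_B hε.le hs, ?_, ?_, fun c i => noBohr P hz c i⟩
  · rw [Set.eq_univ_iff_forall]
    intro x
    rw [Set.mem_iUnion]
    by_cases h : x ∈ P.A 0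
    · exact ⟨0, h⟩
    · refine ⟨1, ?_⟩
      unfold Par.A at h ⊢
      rw [if_pos rfl] at h
      rw [if_neg (by decide)]
      exact h
  · unfold Par.A
    rw [if_pos rfl, if_neg (by decide)]
    exact disjoint_compl_right

end

end Pool.Agent.X167.BH
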